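import Mathlib
import Pool.Agent.Helper9.NS
import Pool.Agent.Helper51.VB.Defs
import Pool.Agent.Helper83.VH.Decomp

/-!
# Project GK: varieties with a family of curves of genus one

`D : Ell k L` is an elliptic curve `y ^ 2 = x ^ 3 - 3 al x - 2 be` over the function field `L` of a
curve, with a place `e1`. `Fam D S` consists of a map from this elliptic surface to the variety `S`
which is defined over the nice places of `L`, such that the zero section and everything over the
place `e1` is mapped to a set `R` on which all functions which vanish on cycles rationally
equivalent to zero are constant, and whose image is so big that a function of this kind which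
vanishes on the image vanishes.
-/

set_option linter.unusedSectionVars false

namespace Pool.Agent.Helper83.GK

open VC VF Function
open Pool.Agent.Helper51.VN (OnE Harm)
open Pool.Agent.Helper51.VB

universe u

/-- The affine points of the nice fibres. -/
def Nic {k L : Type u} [Field k] [Field L] [Algebra k L] (D : Ell k L)
    (p : Place k L × k × k) : Prop :=
  D.Nice p.1 ∧ OnE (D.a₀ p.1) (D.b₀ p.1) p.2.1 p.2.2

/-- Constant morphisms exist. -/
def HasConst {k : Type u} [Field k] (S : Variety k) : Prop :=
  ∀ (K : Type u) [Field K] [Algebra k K] (hK : IsFunctionField k K) (p : S.Pt),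
    ∃ c : S.Mor K, ∀ v, S.eval hK c v = p

/-- A family of curves of genus one on the variety `S`. -/
structure Fam {k L : Type u} [Field k] [Field L] [Algebra k L] (D : Ell k L)
    (S : Variety k) where
  /-- a set on which all functions which vanish on cycles rationally equivalent to zero are
  constant -/
  R : Set S.Pt
  /-- a point of `R` -/
  o : S.Pt
  ho : o ∈ R
  hR : ∀ ψ : S.Pt → k, Kills S ψ → ∀ x ∈ R, ψ x = ψ o
  /-- the map from the elliptic surface to `S` -/
  phi : Place k L × k × k → S.Pt
  /-- the map on points with coordinates in a function field -/
  mor : ∀ (K : Type u) [Field K] [Algebra k K], KPt D K → S.Mor K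
  val : ∀ (K : Type u) [Field K] [Algebra k K] (hK : IsFunctionField k K) (c : KPt D K)
    (w : Place k K) (p : Place k L × k × k), c.Val w p → S.eval hK (mor K c) w = phi p
  zero : ∀ (K : Type u) [Field K] [Algebra k K] (hK : IsFunctionField k K) (c : KPt D K)
    (w : Place k K), c.Zero w → S.eval hK (mor K c) w ∈ R
  dom : ∀ x : S.Pt, ∃ (K : Type u) (_ : Field K) (_ : Algebra k K) (hK : IsFunctionField k K)
    (c : S.Mor K) (v : Place k K), S.eval hK c v = x ∧
      {w : Place k K | ¬ (S.eval hK c w ∈ R ∨ ∃ p, Nic D p ∧ S.eval hK c w = phi p)}.Finite

end Pool.Agent.Helper83.GK
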