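import Mathlib
import Pool.Agent.Helper9.NS
import Pool.Agent.Helper83.GK.Fam

/-!
# Block GK-ELL: the minimal divisor of an elliptic curve over a function field
Proof. `be ≠ 0` (`hj` for `c = 0`) and `al ≠ 0` (`hj` for `c = 1`). Let
`E₀ P = max (⌈- ord P al / 4⌉) (⌈- ord P be / 6⌉)` (integers: `max (-(ord P al / 4)) (-(ord P be / 6))` with the
floor division of `ℤ`, `Int.ediv`), it is `0` if `ord P al = ord P be = 0`, so it has finite support
(`finite_support_ord`). `0 ≤ ord P al + 4 * E₀ P` and `0 ≤ ord P be + 6 * E₀ P` for all `P` (`omega`). Summing the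
first over all `P` and using `degree_zero` (or `FF.deg_dv`): `0 ≤ 4 * deg E₀`. If `al, be` are regular at `P` and
`be ^ 2 - al ^ 3` is a unit, then `ord P al, ord P be ≥ 0` and one of them is `0` (otherwise
`ord P (be ^ 2 - al ^ 3) > 0`), so `E₀ P = 0`. If `1 ≤ deg E₀` take `E = E₀`, otherwise `E = E₀ + single e1 1`
(`e1 ∈ R`, so the condition `nice` is empty at `e1`).
-/

set_option linter.unusedSectionVars false

namespace Pool.Agent.Helper83.GK

open VC VF Function
open Pool.Agent.Helper51.VB

universe u

variable {k L : Type u} [Field k] [IsAlgClosed k] [CharZero k] [Field L] [Algebra k L]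

theorem exists_ell (hL : IsFunctionField k L) {al be : L} (hD : be ^ 2 - al ^ 3 ≠ 0)
    (hj : ∀ c : k, be ^ 2 ≠ algebraMap k L c * (be ^ 2 - al ^ 3)) (R : Finset (Place k L))
    {e1 : Place k L} (he : e1 ∈ R) :
    ∃ D : Ell k L, D.al = al ∧ D.be = be ∧ D.e1 = e1 ∧ D.R = R ∧ 1 ≤ D.N := by
  classical
  have hbe : be ≠ 0 := by
    rintro rfl
    apply hj 0
    rw [map_zero, zero_mul]
    ring
  have hal : al ≠ 0 := by
    rintro rfl
    apply hj 1
    rw [map_one, one_mul]
    ring
  obtain ⟨T, hT⟩ : ∃ T : Finset (Place k L), T = (VC.finite_support_ord hL hal).toFinset ∪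
    (VC.finite_support_ord hL hbe).toFinset := ⟨_, rfl⟩
  have hTal : ∀ P, P ∉ T → ord P.ring al = 0 := by
    intro P hP
    by_contra h
    apply hP
    rw [hT, Finset.mem_union]
    left
    rw [Set.Finite.mem_toFinset]
    exact h
  have hTbe : ∀ P, P ∉ T → ord P.ring be = 0 := by
    intro P hP
    by_contra h
    apply hP
    rw [hT, Finset.mem_union]
    right
    rw [Set.Finite.mem_toFinset]
    exact h
  obtain ⟨E0, hE0⟩ : ∃ E0 : Place k L →₀ ℤ, ∀ P, E0 P =
      max (-(ord P.ring al / 4)) (-(ord P.ring be / 6)) := by
    refine ⟨Finsupp.onFinset T (fun P => max (-(ord P.ring al / 4)) (-(ord P.ring be / 6))) ?_,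
      fun P => rfl⟩
    intro P hP
    by_contra h
    apply hP
    rw [hTal P h, hTbe P h]
    rfl
  have h4 : ∀ P : Place k L, 0 ≤ ord P.ring al + 4 * E0 P := by
    intro P
    have h1 : -(ord P.ring al / 4) ≤ E0 P := by
      rw [hE0]
      exact le_max_left _ _
    omega
  have h6 : ∀ P : Place k L, 0 ≤ ord P.ring be + 6 * E0 P := by
    intro P
    have h1 : -(ord P.ring be / 6) ≤ E0 P := by
      rw [hE0]
      exact le_max_right _ _
    omega
  have hsupp : E0.support ⊆ T := by
    intro P hP
    by_contra h
    apply Finsupp.mem_support_iff.mp hP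
    rw [hE0, hTal P h, hTbe P h]
    rfl
  have hdeg : (E0.sum fun _ m => m) = ∑ P ∈ T, E0 P :=
    Finsupp.sum_of_support_subset _ hsupp _ (fun _ _ => rfl)
  have hdeg0 : 0 ≤ E0.sum fun _ m => m := by
    have h1 : ∑ P ∈ T, ord P.ring al = 0 := by
      rw [← VP.degree_zero hL hal]
      symm
      apply Finset.sum_subset
      · rw [hT]
        exact Finset.subset_union_left
      · intro P _ hP
        by_contra h
        exact hP ((Set.Finite.mem_toFinset _).mpr h)
    have h2 : 0 ≤ ∑ P ∈ T, (ord P.ring al + 4 * E0 P) := Finset.sum_nonneg fun P _ => h4 P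
    rw [Finset.sum_add_distrib, h1, ← Finset.mul_sum, ← hdeg] at h2
    omega
  have hnice : ∀ P : Place k L, al ∈ P.ring → be ∈ P.ring →
      ord P.ring (be ^ 2 - al ^ 3) = 0 → E0 P = 0 := by
    intro P h1 h2 h3
    have ha := (VC.ord_nonneg_iff hL P hal).mpr h1
    have hb := (VC.ord_nonneg_iff hL P hbe).mpr h2
    have h5 : ord P.ring al = 0 ∨ ord P.ring be = 0 := by
      by_contra h
      push Not at h
      have h6 : al ∈ P.ring.nonunits := (VC.ord_pos_iff hL P hal).mp (by omega)
      have h7 : be ∈ P.ring.nonunits := (VC.ord_pos_iff hL P hbe).mp (by omega)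
      have h8 : be ^ 2 - al ^ 3 ∈ P.ring.nonunits := by
        have e : be ^ 2 - al ^ 3 = be * be + (-(al ^ 2)) * al := by ring
        rw [e]
        exact nonunits_add (nonunits_mul h2 h7)
          (nonunits_mul (P.ring.neg_mem _ (pow_mem h1 2)) h6)
      have h9 := (VC.ord_pos_iff hL P hD).mpr h8
      omega
    rw [hE0]
    rcases h5 with h5 | h5
    · rw [h5]
      omega
    · rw [h5]
      omega
  by_cases h1 : 1 ≤ E0.sum fun _ m => m
  · exact ⟨{ hL := hL
             al := al
             be := be
             hD := hD
             E := E0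
             N := (E0.sum fun _ m => m).toNat
             deg := by omega
             h4 := fun P _ => h4 P
             h6 := fun P _ => h6 P
             R := R
             nice := fun P h2 h3 h5 _ => hnice P h2 h3 h5
             e1 := e1
             bad0 := fun _ h => h.2.2.2 he }, rfl, rfl, rfl, rfl, by
        change 1 ≤ (E0.sum fun _ m => m).toNat
        omega⟩
  · have h2 : (E0.sum fun _ m => m) = 0 := by omega
    have hs : ∀ P, 0 ≤ Finsupp.single e1 (1 : ℤ) P := by
      intro P
      rw [Finsupp.single_apply]
      split_ifs <;> omega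
    exact ⟨{ hL := hL
             al := al
             be := be
             hD := hD
             E := E0 + Finsupp.single e1 1
             N := 1
             deg := by
               rw [Finsupp.sum_add_index' (fun _ => rfl) (fun _ _ _ => rfl), h2,
                 Finsupp.sum_single_index rfl]
               rfl
             h4 := fun P _ => by
               rw [Finsupp.add_apply]
               have := h4 P
               have := hs P
               omega
             h6 := fun P _ => by
               rw [Finsupp.add_apply]
               have := h6 P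
               have := hs P
               omega
             R := R
             nice := fun P h3 h5 h7 h8 => by
               rw [Finsupp.add_apply, hnice P h3 h5 h7, zero_add]
               apply Finsupp.single_eq_of_ne
               rintro rfl
               exact h8 he
             e1 := e1
             bad0 := fun _ h => h.2.2.2 he }, rfl, rfl, rfl, rfl, le_refl 1⟩

end Pool.Agent.Helper83.GK
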