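import Mathlib
import Pool.Agent.Helper9.NS
import Pool.Agent.Helper83.GK.Fam

/-!
# Block GK-ASM: reduction to normalized alternating functions
Proof of `assembly_norm`. By `VF.separation` (see `VH.assembly` in `Helper83/VH/Decomp.lean`) we have to
show that `Finsupp.linearCombination ℤ Φ` of the alternating sum is zero for every `Φ` with
`Kills (X.pow n) Φ`. By `VH.lc_alt` this is `linearCombination ℤ (alt Φ) (extProd a)`. For
`T : Finset (Fin n)` let `r T p := fun i => if i ∈ T then o else p i`; it is induced (`hq`), so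
`fun p => alt Φ (r T p)` satisfies `Kills` (`VH.kills_alt`, `Kills.comp`). Put
`Ψ p = ∑ T : Finset (Fin n), (-1) ^ T.card * alt Φ (r T p)`. Then `Kills Ψ` (`Kills.sum`, `Kills.smul`);
`Ψ (p ∘ swap i j) = - Ψ p` (reindex `T` by the swap: `r T (p ∘ swap) = (r (T.map swap) p) ∘ swap`,
`VH.alt_swap`); `Ψ p = 0` if `p i = o` (`T` and the symmetric difference of `T` with `{i}` cancel:
`Finset.sum_involution` or split `T` by `i ∈ T`). So `Ψ = 0` by `H`, and
`0 = linearCombination ℤ Ψ (extProd a) = ∑ T, (-1) ^ T.card * linearCombination ℤ (alt Φ ∘ r T) (extProd a)`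
(`lc_sum`, `lc_smul` as in `VH.lc_alt`); for `T ≠ ∅` the function `alt Φ ∘ r T` does not depend on the
variable `i ∈ T`, so the term is `0` by `lin_ext_zero` (used in `VH.assembly_deg`). The term `T = ∅` is
what we want.
-/

set_option linter.unusedSectionVars false

namespace Pool.Agent.Helper83.GK

open VC VF VP Function

universe u

variable {k : Type u} [Field k] [IsAlgClosed k] [CharZero k]

/-- Replace the points with index in `T` by `o`. -/
private def rt86 {X : Variety k} {n : ℕ} (o : X.Pt) (T : Finset (Fin n)) (p : (X.pow n).Pt) :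
    (X.pow n).Pt :=
  fun i => if i ∈ T then o else p i

private lemma induced_rt86 {X : Variety k} {n : ℕ} (hq : HasConst X) (o : X.Pt)
    (T : Finset (Fin n)) : Induced (X.pow n) (X.pow n) (rt86 o T) := by
  refine induced_pow (fun i (q : X.Pt) => if i ∈ T then o else q) ?_
  intro i K _ _ hK c
  by_cases h : i ∈ T
  · obtain ⟨c', hc'⟩ := hq K hK o
    exact ⟨c', fun v => by rw [hc']; simp [h]⟩
  · exact ⟨c, fun v => by simp [h]⟩

private lemma rt_swap86 {X : Variety k} {n : ℕ} (o : X.Pt) (T : Finset (Fin n)) (i j : Fin n)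
    (p : (X.pow n).Pt) : rt86 (X := X) o T (fun l => p (Equiv.swap i j l)) =
      fun l => rt86 (X := X) o (T.map (Equiv.swap i j).toEmbedding) p (Equiv.swap i j l) := by
  funext l
  unfold rt86
  have h1 : Equiv.swap i j l ∈ T.map (Equiv.swap i j).toEmbedding ↔ l ∈ T := by
    rw [Finset.mem_map_equiv, Equiv.symm_apply_apply]
  by_cases h : l ∈ T
  · rw [if_pos h, if_pos (h1.mpr h)]
  · rw [if_neg h, if_neg (fun h' => h (h1.mp h'))]

/-- The normalization. -/
private noncomputable def nrm86 {X : Variety k} {n : ℕ} (o : X.Pt) (F : (X.pow n).Pt → k)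
    (p : (X.pow n).Pt) : k :=
  ∑ T : Finset (Fin n), (-1) ^ T.card * F (rt86 o T p)

private lemma nrm_swap86 {X : Variety k} {n : ℕ} (o : X.Pt) (F : (X.pow n).Pt → k) (i j : Fin n)
    (hF : ∀ p : (X.pow n).Pt, F (fun l => p (Equiv.swap i j l)) = -F p) (p : (X.pow n).Pt) :
    nrm86 o F (fun l => p (Equiv.swap i j l)) = -nrm86 o F p := by
  unfold nrm86
  rw [← Finset.sum_neg_distrib]
  refine Fintype.sum_equiv (Equiv.finsetCongr (Equiv.swap i j)) _ _ ?_
  intro T
  rw [rt_swap86, hF]
  have h1 : (Equiv.finsetCongr (Equiv.swap i j)) T = T.map (Equiv.swap i j).toEmbedding := rfl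
  rw [h1, Finset.card_map]
  ring

private lemma nrm_zero86 {X : Variety k} {n : ℕ} (o : X.Pt) (F : (X.pow n).Pt → k)
    (p : (X.pow n).Pt) (i : Fin n) (hp : p i = o) : nrm86 o F p = 0 := by
  classical
  unfold nrm86
  have h1 : ∀ T : Finset (Fin n), rt86 (X := X) o (insert i T) p = rt86 (X := X) o (T.erase i) p := by
    intro T
    funext l
    unfold rt86
    by_cases hl : l = i
    · subst hl
      simp [hp]
    · simp [hl]
  refine Finset.sum_involution (fun T _ => if i ∈ T then T.erase i else insert i T) ?_ ?_ ?_ ?_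
  · intro T _
    by_cases h : i ∈ T
    · rw [if_pos h]
      have h2 : rt86 (X := X) o T p = rt86 (X := X) o (T.erase i) p := by
        rw [← h1, Finset.insert_eq_of_mem h]
      have h3 : T.card = (T.erase i).card + 1 := (Finset.card_erase_add_one h).symm
      rw [h2, h3]
      ring
    · rw [if_neg h]
      have h2 : rt86 (X := X) o T p = rt86 (X := X) o (insert i T) p := by
        rw [h1, Finset.erase_eq_of_notMem h]
      have h3 : (insert i T).card = T.card + 1 := Finset.card_insert_of_notMem h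
      rw [h2, h3]
      ring
  · intro T _ _
    by_cases h : i ∈ T
    · rw [if_pos h]
      intro h'
      have h3 : i ∉ T.erase i := Finset.notMem_erase i T
      rw [h'] at h3
      exact h3 h
    · rw [if_neg h]
      intro h'
      have h3 : i ∈ insert i T := Finset.mem_insert_self i T
      rw [h'] at h3
      exact h h3
  · intro T _
    exact Finset.mem_univ _
  · intro T _
    by_cases h : i ∈ T
    · simp [h]
    · simp [h]

theorem assembly_norm {X : Variety k} (hq : HasConst X) (o : X.Pt) (n : ℕ)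
    (a : Fin n → X.Cycles) (ha : ∀ i, (a i).sum (fun _ z => z) = 0)
    (H : ∀ Ψ : (X.pow n).Pt → k, Kills (X.pow n) Ψ →
      (∀ i j, i ≠ j → ∀ p : (X.pow n).Pt, Ψ (fun l => p (Equiv.swap i j l)) = -Ψ p) →
      (∀ (p : (X.pow n).Pt) (i : Fin n), p i = o → Ψ p = 0) → ∀ p, Ψ p = 0) :
    ∃ M : ℕ, 0 < M ∧ M • ∑ σ : Equiv.Perm (Fin n), ((Equiv.Perm.sign σ : ℤˣ) : ℤ) •
      extProd (fun i => a (σ i)) ∈ (X.pow n).Rat := by
  classical
  refine separation (X.pow n) _ fun Φ hΦ => ?_
  rw [VH.lc_alt]
  have h1 : ∀ p, nrm86 o (VH.alt Φ) p = 0 := by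
    apply H
    · exact Kills.sum _ fun T _ => Kills.smul _ ((VH.kills_alt hΦ).comp (induced_rt86 hq o T))
    · intro i j hij p
      exact nrm_swap86 o _ i j (fun q => VH.alt_swap Φ i j hij q) p
    · intro p i hp
      exact nrm_zero86 o _ p i hp
  have h2 : Finsupp.linearCombination ℤ (nrm86 o (VH.alt Φ)) (extProd a) = 0 := by
    have h3 : nrm86 o (VH.alt Φ) = fun _ => 0 := funext h1
    rw [h3]
    exact lc_zero (X.pow n) _
  have h4 : nrm86 o (VH.alt Φ) = fun p => ∑ T : Finset (Fin n), (-1) ^ T.card *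
      VH.alt Φ (rt86 o T p) := rfl
  rw [h4, lc_sum (X.pow n), Finset.sum_eq_single ∅] at h2
  · have h5 : (fun p : (X.pow n).Pt => ((-1 : k)) ^ (∅ : Finset (Fin n)).card *
        VH.alt Φ (rt86 o ∅ p)) = VH.alt Φ := by
      funext p
      have h6 : rt86 (X := X) o ∅ p = p := by
        funext l
        simp [rt86]
      rw [h6, Finset.card_empty, pow_zero, one_mul]
    rw [h5] at h2
    exact h2
  · intro T _ hT
    obtain ⟨i, hi⟩ := Finset.nonempty_iff_ne_empty.mpr hT
    change Finsupp.linearCombination ℤ _ (ext' a) = 0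
    refine lin_ext_zero (i := i) ?_ a (ha i)
    intro p x y
    have h7 : rt86 (X := X) o T (update p i x) = rt86 (X := X) o T (update p i y) := by
      funext l
      unfold rt86
      by_cases hl : l ∈ T
      · rw [if_pos hl, if_pos hl]
      · have : l ≠ i := fun h => hl (h ▸ hi)
        rw [if_neg hl, if_neg hl, update_of_ne this, update_of_ne this]
    rw [h7]
  · intro h
    exact absurd (Finset.mem_univ _) h

end Pool.Agent.Helper83.GK
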