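import Mathlib
import Pool.Agent.Helper9.NS
import Pool.Agent.Helper83.GK.Fam
import Pool.Agent.Helper83.KV.App

/-!
# Block GK-DOM: functions vanishing on the image vanish
`harm_zero`: a harmonic function `F` on the places of a function field which vanishes outside a
finite set vanishes: for a place `v` take `f ≠ 0` with a pole (or zero) at `v` and order `0` at the finitely many
other places `w` with `F w ≠ 0` (the same argument is used in `Helper83/VN/Mv1.lean` or `Helper83/KV/Move.lean`:
look for a lemma on functions which vanish at almost all places, `exists_ord` or the approximation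
used there; e.g. `FF.exists_genus` gives a function with a pole at `v` only, subtract a constant to
make it nonzero at the others). Then `ord v f * F v = 0`.
`zero_of_im`: let `Im x` be the statement `x ∈ F.R ∨ ∃ q, Nic D q ∧ x = F.phi q`. Induction on the number of
indices `i` with `¬ Im (p i)`: if there is one, take `K, c, v` from `F.dom (p i)`; the function
`w ↦ Ψ (update p i (S.eval hK c w))` is harmonic (`Kills.comp` with `induced_update`, `Kills.gen`), it vanishes
where `Im (S.eval hK c w)` (induction hypothesis), so everywhere, in particular at `v`.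
-/

set_option linter.unusedSectionVars false

namespace Pool.Agent.Helper83.GK

open VC VF Function
open Pool.Agent.Helper51.VN (OnE Harm)
open Pool.Agent.Helper51.VB

universe u

variable {k L : Type u} [Field k] [IsAlgClosed k] [CharZero k] [Field L] [Algebra k L]

/-- A harmonic function which vanishes at almost all places vanishes. -/
theorem harm_zero {K : Type u} [Field K] [Algebra k K] (hK : IsFunctionField k K)
    {F : Place k K → k} (h : Harm hK F) (hf : {w | F w ≠ 0}.Finite) (v : Place k K) : F v = 0 := by
  classical
  by_contra hv
  obtain ⟨f, hf0, hf1, hf2⟩ := Helper83.KV.exists_zero_at hK (hf.toFinset.erase v) v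
    (Finset.notMem_erase v _)
  have h1 := h f hf0
  have h2 : ∀ w ∈ (finite_support_ord hK hf0).toFinset, w ≠ v →
      (ord w.ring f : k) * F w = 0 := by
    intro w _ hw
    by_cases hwT : F w = 0
    · rw [hwT, mul_zero]
    · rw [hf2 w (Finset.mem_erase.mpr ⟨hw, hf.mem_toFinset.mpr hwT⟩), Int.cast_zero, zero_mul]
  rw [Finset.sum_eq_single v h2 (fun hn => by
    exfalso
    apply hn
    rw [Set.Finite.mem_toFinset, Set.mem_ofPred_eq]
    exact hf1)] at h1
  exact hv ((mul_eq_zero.mp h1).resolve_left (Int.cast_ne_zero.mpr hf1))

theorem zero_of_im {D : Ell k L} {S : Variety k} (hq : HasConst S) (F : Fam D S) {n : ℕ}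
    {Ψ : (S.pow n).Pt → k} (hk : Kills (S.pow n) Ψ)
    (h0 : ∀ p : (S.pow n).Pt, (∀ i, p i ∈ F.R ∨ ∃ q, Nic D q ∧ p i = F.phi q) → Ψ p = 0)
    (p : (S.pow n).Pt) : Ψ p = 0 := by
  classical
  have key : ∀ (m : ℕ) (p : (S.pow n).Pt), (Finset.univ.filter fun i : Fin n =>
      ¬ (p i ∈ F.R ∨ ∃ q, Nic D q ∧ p i = F.phi q)).card = m → Ψ p = 0 := by
    intro m
    induction m with
    | zero =>
      intro p hp
      refine h0 p fun i => ?_
      by_contra hi
      have h1 : i ∈ Finset.univ.filter fun i : Fin n =>
          ¬ (p i ∈ F.R ∨ ∃ q, Nic D q ∧ p i = F.phi q) :=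
        Finset.mem_filter.mpr ⟨Finset.mem_univ i, hi⟩
      rw [Finset.card_eq_zero] at hp
      rw [hp] at h1
      exact Finset.notMem_empty i h1
    | succ m ih =>
      intro p hp
      obtain ⟨i, hi⟩ : (Finset.univ.filter fun i : Fin n =>
          ¬ (p i ∈ F.R ∨ ∃ q, Nic D q ∧ p i = F.phi q)).Nonempty := by
        rw [← Finset.card_pos]
        omega
      obtain ⟨K, _, _, hK, c, v, hv, hfin⟩ := F.dom (p i)
      have hk1 : Kills S (fun x => Ψ (update p i x)) :=
        hk.comp (induced_update S p (fun K _ _ hK q => hq K hK q) i)
      have h3 := harm_zero hK (F := fun w => Ψ (update p i (S.eval hK c w)))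
        (fun f hf => hk1.gen hK c hf) ?_ v
      · rw [hv, update_eq_self] at h3
        exact h3
      · refine hfin.subset ?_
        intro w hw him
        apply hw
        refine ih (update p i (S.eval hK c w)) ?_
        have e : (Finset.univ.filter fun j : Fin n =>
            ¬ ((update p i (S.eval hK c w)) j ∈ F.R ∨
              ∃ q, Nic D q ∧ (update p i (S.eval hK c w)) j = F.phi q)) =
            (Finset.univ.filter fun i : Fin n =>
              ¬ (p i ∈ F.R ∨ ∃ q, Nic D q ∧ p i = F.phi q)).erase i := by
          ext j
          rw [Finset.mem_erase, Finset.mem_filter, Finset.mem_filter]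
          by_cases hj : j = i
          · subst hj
            rw [update_self]
            constructor
            · rintro ⟨-, h⟩
              exact absurd him h
            · rintro ⟨h, -⟩
              exact absurd rfl h
          · rw [update_of_ne hj]
            constructor
            · intro h
              exact ⟨hj, h⟩
            · intro h
              exact h.2
        rw [e, Finset.card_erase_of_mem hi, hp]
        rfl
  exact key _ p rfl

end Pool.Agent.Helper83.GK
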