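import Mathlib
import Pool.Agent.Helper9.NS
import Pool.Agent.Helper83.GK.Fam
import Pool.Agent.Helper51.EW.Path

/-!
# Block GK-ODD: functions with harmonic restrictions are odd
Proof. Let `p` be a tuple of nice points, `i` an index, `P = (p i).1`, `a = D.a₀ P`, `b = D.b₀ P`,
`X = (p i).2.1`, `Y = (p i).2.2`. Take (`exists_poly_roots two_ne_zero` for one polynomial, see
`Helper83/QF/Evn.lean`) a function field `K` with `τ` transcendental over `k` and `y ∈ K`,
`y ^ 2 = τ ^ 3 - 3 a τ - 2 b`. For `ε = 1, -1` let `c ε : Fin n → KPt D K` be the point with components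
`(cst (p j).1, X_j, Y_j)` (constants) for `j ≠ i` and `(cst P, τ, ε y)` for `j = i`; `F ε` the function given
by `harm`. Put `f = τ - X ≠ 0`. If `0 < ord w f` then `IsRes w τ X`, so `y` has a residue `Y'` with
`Y' ^ 2 = Y ^ 2` (`exists_res_of_pow`), `Y' = Y` or `Y' = - Y`, and by the first property of `F ε`
`F 1 w + F (-1) w = Ψ p + Ψ (update p i (P, X, -Y)) =: A` in both cases (all components satisfy `KPt.Val`;
if `Y' = -Y` then `F 1 w = Ψ (update ..)` and `F (-1) w = Ψ p`). If `ord w f < 0` then `τ ∉ w.ring` and `F ε w = 0` by the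
second property (`KPt.Zero`, the second case: nice place, `Ov` of a constant is equality, pole of `x`).
Adding the two relations `∑ w, ord w f * F ε w = 0` gives `(∑ over ord w f > 0 of ord w f) * A = 0`. The
sum is a positive integer: `f` is not constant so it has a zero (`degree_zero`: if there is no zero
there is no pole either and `f` is constant; compare the proof of `VF.path` in
`Helper83/VF/Kill.lean`, or `Helper51/EW/Path.lean`).
-/

set_option linter.unusedSectionVars false

namespace Pool.Agent.Helper83.GK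

open VC VF Function
open Pool.Agent.Helper51.VN (OnE Harm)
open Pool.Agent.Helper51.VB

universe u

variable {k L : Type u} [Field k] [IsAlgClosed k] [CharZero k] [Field L] [Algebra k L]

/-- The constant point. -/
private noncomputable def cpt4 {K : Type u} [Field K] [Algebra k K] (D : Ell k L)
    (q : Place k L × k × k) (hq : Nic D q) : KPt D K where
  p := .cst q.1
  x := algebraMap k K q.2.1
  y := algebraMap k K q.2.2
  nc := fun _ hQ => BP.cst.inj hQ ▸ hq.1
  hE := by
    have h1 : q.2.2 ^ 2 = q.2.1 ^ 3 - 3 * D.a₀ q.1 * q.2.1 - 2 * D.b₀ q.1 := hq.2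
    have h2 := congrArg (algebraMap k K) h1
    simp only [map_sub, map_mul, map_pow, map_ofNat] at h2
    exact h2

/-- The point of the fibre over `P` with coordinates `x`, `y`. -/
private noncomputable def fpt4 {K : Type u} [Field K] [Algebra k K] (D : Ell k L)
    {P : Place k L} (hP : D.Nice P) (x y : K)
    (h : OnE (algebraMap k K (D.a₀ P)) (algebraMap k K (D.b₀ P)) x y) : KPt D K where
  p := .cst P
  x := x
  y := y
  nc := fun _ hQ => BP.cst.inj hQ ▸ hP
  hE := h

theorem odd_of_harm (D : Ell k L) {n : ℕ} {Ψ : (Fin n → Place k L × k × k) → k}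
    (harm : ∀ (K : Type u) [Field K] [Algebra k K] (hK : IsFunctionField k K)
      (c : Fin n → KPt D K), ∃ F : Place k K → k, Harm hK F ∧
      (∀ (w : Place k K) (p : Fin n → Place k L × k × k), (∀ i, (c i).Val w (p i)) → F w = Ψ p) ∧
      (∀ (w : Place k K) (i : Fin n), (c i).Zero w → F w = 0))
    (p : Fin n → Place k L × k × k) (i : Fin n) (hp : ∀ j, Nic D (p j)) :
    Ψ (update p i ((p i).1, (p i).2.1, -(p i).2.2)) = -Ψ p := by
  classical
  obtain ⟨K, _, _, τ, ys, hK, hτ, hys⟩ := exists_poly_roots (k := k) (n := 1) two_ne_zero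
    (fun _ => (Polynomial.X ^ 3 - Polynomial.C (3 * D.a₀ (p i).1) * Polynomial.X -
      Polynomial.C (2 * D.b₀ (p i).1) : Polynomial k))
  have hy := hys 0
  generalize ys 0 = y at hy
  simp only [map_sub, map_mul, map_pow, Polynomial.aeval_X, Polynomial.aeval_C, map_ofNat] at hy
  have hyE : OnE (algebraMap k K (D.a₀ (p i).1)) (algebraMap k K (D.b₀ (p i).1)) τ y := hy
  have hyE' : OnE (algebraMap k K (D.a₀ (p i).1)) (algebraMap k K (D.b₀ (p i).1)) τ (-y) := by
    unfold OnE
    rw [neg_sq]
    exact hy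
  -- the functions
  have key : ∀ (y' : K) (h : OnE (algebraMap k K (D.a₀ (p i).1))
      (algebraMap k K (D.b₀ (p i).1)) τ y'), ∃ F : Place k K → k, Harm hK F ∧
      (∀ (w : Place k K) (η : k), IsRes w τ (p i).2.1 → IsRes w y' η →
        F w = Ψ (update p i ((p i).1, (p i).2.1, η))) ∧
      (∀ w : Place k K, τ ∉ w.ring → F w = 0) := by
    intro y' h
    obtain ⟨F, hF, hF1, hF2⟩ := harm K hK
      (update (fun j => cpt4 D (p j) (hp j)) i (fpt4 D (hp i).1 τ y' h))
    refine ⟨F, hF, fun w η h1 h2 => hF1 w _ fun j => ?_, fun w hw => hF2 w i (Or.inr ?_)⟩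
    · by_cases hj : j = i
      · rw [hj, update_self, update_self]
        exact ⟨(hp i).1, rfl, h1, h2⟩
      · rw [update_of_ne hj, update_of_ne hj]
        exact ⟨(hp j).1, rfl, isRes_const _, isRes_const _⟩
    · rw [update_self]
      exact ⟨(p i).1, (hp i).1, rfl, hw⟩
  obtain ⟨F₁, hF₁, hF₁v, hF₁z⟩ := key y hyE
  obtain ⟨F₂, hF₂, hF₂v, hF₂z⟩ := key (-y) hyE'
  have hself : update p i ((p i).1, (p i).2.1, (p i).2.2) = p := by
    rw [show ((p i).1, (p i).2.1, (p i).2.2) = p i from rfl, update_eq_self]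
  set A : k := Ψ p + Ψ (update p i ((p i).1, (p i).2.1, -(p i).2.2)) with hA
  -- the function f
  have hf0 : τ - algebraMap k K (p i).2.1 ≠ 0 := by
    intro h0
    apply hτ
    rw [sub_eq_zero.mp h0]
    exact isAlgebraic_algebraMap _
  have hpos : ∀ v : Place k K, 0 < ord v.ring (τ - algebraMap k K (p i).2.1) →
      F₁ v + F₂ v = A := by
    intro v hv
    rw [ord_pos_iff hK v hf0] at hv
    have hv' : IsRes v τ (p i).2.1 := hv
    have h1 : IsRes v (y ^ 2) ((p i).2.2 ^ 2) := by
      have h2 : (p i).2.2 ^ 2 = (p i).2.1 ^ 3 - 3 * D.a₀ (p i).1 * (p i).2.1 -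
        2 * D.b₀ (p i).1 := (hp i).2
      rw [hy, h2]
      have h3 : IsRes v ((3 : K) * algebraMap k K (D.a₀ (p i).1)) (3 * D.a₀ (p i).1) := by
        have := isRes_const (v := v) (3 * D.a₀ (p i).1)
        rwa [map_mul, map_ofNat] at this
      have h4 : IsRes v ((2 : K) * algebraMap k K (D.b₀ (p i).1)) (2 * D.b₀ (p i).1) := by
        have := isRes_const (v := v) (2 * D.b₀ (p i).1)
        rwa [map_mul, map_ofNat] at this
      exact ((hv'.pow 3).sub (h3.mul hv')).sub h4
    obtain ⟨η, hη, hη2⟩ := exists_res_of_pow hK two_ne_zero h1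
    rw [hF₁v v η hv' hη, hF₂v v (-η) hv' hη.neg]
    rcases sq_eq_sq_iff_eq_or_eq_neg.mp hη2 with h5 | h5
    · rw [h5, hself]
    · rw [h5, neg_neg, hself, hA]
      ring
  have hneg : ∀ v : Place k K, ord v.ring (τ - algebraMap k K (p i).2.1) < 0 →
      F₁ v + F₂ v = 0 := by
    intro v hv
    have hv' : (τ - algebraMap k K (p i).2.1)⁻¹ ∈ v.ring.nonunits := by
      rw [← ord_pos_iff hK v (inv_ne_zero hf0), ord_inv hK v hf0]
      omega
    have h1 : τ ∉ v.ring := by
      intro h2
      have h3 := nonunits_mul (sub_mem h2 (v.algebraMap_mem (p i).2.1)) hv'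
      rw [mul_inv_cancel₀ hf0] at h3
      exact one_notMem h3
    rw [hF₁z v h1, hF₂z v h1, add_zero]
  have hsum : ∑ v ∈ (finite_support_ord hK hf0).toFinset,
      (ord v.ring (τ - algebraMap k K (p i).2.1) : k) * (F₁ v + F₂ v) = 0 := by
    simp only [mul_add, Finset.sum_add_distrib]
    rw [hF₁ _ hf0, hF₂ _ hf0, add_zero]
  have h4 : ∀ v ∈ (finite_support_ord hK hf0).toFinset,
      (ord v.ring (τ - algebraMap k K (p i).2.1) : k) * (F₁ v + F₂ v) =
      ((max (ord v.ring (τ - algebraMap k K (p i).2.1)) 0 : ℤ) : k) * A := by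
    intro v _
    rcases lt_trichotomy (ord v.ring (τ - algebraMap k K (p i).2.1)) 0 with hlt | heq | hgt
    · rw [hneg v hlt, max_eq_right hlt.le]
      simp
    · rw [heq]
      simp
    · rw [hpos v hgt, max_eq_left hgt.le]
  rw [Finset.sum_congr rfl h4, ← Finset.sum_mul, mul_eq_zero] at hsum
  rcases hsum with h3 | h3
  · exfalso
    have h5 : ∑ v ∈ (finite_support_ord hK hf0).toFinset,
        max (ord v.ring (τ - algebraMap k K (p i).2.1)) 0 = 0 := by
      exact_mod_cast h3
    rw [Finset.sum_eq_zero_iff_of_nonneg (fun v _ => le_max_right _ _)] at h5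
    have hτa : Transcendental k (τ - algebraMap k K (p i).2.1) := by
      intro h6
      apply hτ
      have := h6.add (isAlgebraic_algebraMap (A := K) (p i).2.1)
      rwa [sub_add_cancel] at this
    obtain ⟨v, hv⟩ := exists_place hK hτa
    have h8 := (ord_pos_iff hK v hf0).mpr hv
    have h9 := h5 v (by
      rw [Set.Finite.mem_toFinset, Set.mem_ofPred_eq]
      exact h8.ne')
    rw [max_eq_left h8.le] at h9
    exact h8.ne' h9
  · rw [hA] at h3
    linear_combination h3

end Pool.Agent.Helper83.GK
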