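import Mathlib
import Pool.Agent.Helper9.NS
import Pool.Agent.Helper83.GK.Odd

/-!
# Block GK-OJ: the functional on the elliptic surface
`zero_of_R`: the function `x ↦ Ψ (update p i x)` satisfies `Kills` (`Kills.comp`, `induced_update`), so its
values at `p i ∈ F.R` and at `F.o` agree (`F.hR`), and the latter is `0`.
`oj_of_fam`: `harm`: for `c : Fin n → KPt D K` take `F w = Ψ (fun i => S.eval hK (F.mor K (c i)) w)`; it is harmonic by
`Kills.gen` for the point `fun i => F.mor K (c i)` of `S.pow n` (its value is the tuple of the values by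
definition); the two other properties are `F.val` and `F.zero` with `zero_of_R`. `odd`: `odd_of_harm`. `alt`: from `halt`.
-/

set_option linter.unusedSectionVars false

namespace Pool.Agent.Helper83.GK

open VC VF Function
open Pool.Agent.Helper51.VN (OnE Harm)
open Pool.Agent.Helper51.VB

universe u

variable {k L : Type u} [Field k] [IsAlgClosed k] [CharZero k] [Field L] [Algebra k L]

theorem zero_of_R {D : Ell k L} {S : Variety k} (hq : HasConst S) (F : Fam D S) {n : ℕ}
    {Ψ : (S.pow n).Pt → k} (hk : Kills (S.pow n) Ψ)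
    (h0 : ∀ (p : (S.pow n).Pt) (i : Fin n), p i = F.o → Ψ p = 0) (p : (S.pow n).Pt) (i : Fin n)
    (hp : p i ∈ F.R) : Ψ p = 0 := by
  have h1 : Kills S (fun x => Ψ (update p i x)) := hk.comp (induced_update S p hq i)
  have h2 := F.hR _ h1 (p i) hp
  simp only [update_eq_self] at h2
  rw [h2]
  exact h0 _ i (by rw [update_self])

theorem oj_of_fam {D : Ell k L} {S : Variety k} (hq : HasConst S) (F : Fam D S) {n : ℕ}
    {Ψ : (S.pow n).Pt → k} (hk : Kills (S.pow n) Ψ)
    (halt : ∀ i j, i ≠ j → ∀ p : (S.pow n).Pt, Ψ (fun l => p (Equiv.swap i j l)) = -Ψ p)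
    (h0 : ∀ (p : (S.pow n).Pt) (i : Fin n), p i = F.o → Ψ p = 0) :
    OJ D n (fun p => Ψ (fun i => F.phi (p i))) := by
  have harm : ∀ (K : Type u) [Field K] [Algebra k K] (hK : IsFunctionField k K)
      (c : Fin n → KPt D K), ∃ G : Place k K → k, Harm hK G ∧
      (∀ (w : Place k K) (p : Fin n → Place k L × k × k), (∀ i, (c i).Val w (p i)) →
        G w = Ψ (fun i => F.phi (p i))) ∧
      (∀ (w : Place k K) (i : Fin n), (c i).Zero w → G w = 0) := by
    intro K _ _ hK c
    refine ⟨fun w => Ψ (fun i => S.eval hK (F.mor K (c i)) w), ?_, ?_, ?_⟩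
    · intro f hf
      exact hk.gen hK (fun i => F.mor K (c i)) hf
    · intro w p h
      change Ψ (fun i => S.eval hK (F.mor K (c i)) w) = _
      congr 1
      funext i
      exact F.val K hK (c i) w (p i) (h i)
    · intro w i h
      exact zero_of_R hq F hk h0 _ i (F.zero K hK (c i) w h)
  refine ⟨harm, ?_, ?_⟩
  · intro p i hp
    exact odd_of_harm D harm p i hp
  · intro i j hij p _
    exact halt i j hij (fun l => F.phi (p l))

end Pool.Agent.Helper83.GK
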