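import Mathlib
import Pool.Agent.Helper9.NS
import Pool.Agent.Helper83.GK.Fam
import Pool.Agent.Helper17.FF.Genus
import Pool.Agent.Helper51.VB.Van

/-!
# The main theorem of project VB
-/

set_option linter.unusedSectionVars false

namespace Pool.Agent.Helper83.GK

open VC VF Function
open Pool.Agent.Helper51.VN (OnE Harm)
open Pool.Agent.Helper51.VB

universe u

variable {k L : Type u} [Field k] [IsAlgClosed k] [CharZero k] [Field L] [Algebra k L]

theorem vb_main (D : Ell k L) [D.Gen] {g : ℕ} (hg : IsGenus k L g) {n : ℕ} (hn : D.N + g ≤ n)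
    {Ψ : (Fin n → Place k L × k × k) → k} (h : OJ D n Ψ) (p : Fin n → Place k L × k × k)
    (hp : ∀ j, Nic D (p j)) : Ψ p = 0 := Helper51.VB.vb_main D hg hn h p hp

end Pool.Agent.Helper83.GK
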