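import Mathlib
import Pool.Agent.Helper9.NS
import Pool.Agent.Helper83.GK.Asm
import Pool.Agent.Helper83.GK.Dom
import Pool.Agent.Helper83.GK.Oj
import Pool.Agent.Helper83.GK.Vb

/-!
# Project GK: the main theorem
-/

set_option linter.unusedSectionVars false

namespace Pool.Agent.Helper83.GK

open VC VF Function
open Pool.Agent.Helper51.VN (OnE Harm)
open Pool.Agent.Helper51.VB

universe u

variable {k L : Type u} [Field k] [IsAlgClosed k] [CharZero k] [Field L] [Algebra k L]

/-- If the variety `S` is dominated by a family of curves of genus one, its zero-cycles of degree zero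
satisfy the alternating relations for all large `n`. -/
theorem voisin_fam {D : Ell k L} [D.Gen] {S : Variety k} (hq : HasConst S) (F : Fam D S) {g : ℕ}
    (hg : IsGenus k L g) {n : ℕ} (hn : D.N + g ≤ n) (a : Fin n → S.Cycles)
    (ha : ∀ i, (a i).sum (fun _ c => c) = 0) :
    ∃ M : ℕ, 0 < M ∧ M • ∑ σ : Equiv.Perm (Fin n), ((Equiv.Perm.sign σ : ℤˣ) : ℤ) •
      extProd (fun i => a (σ i)) ∈ (S.pow n).Rat := by
  refine assembly_norm hq F.o n a ha fun Ψ hk halt h0 => ?_
  refine zero_of_im hq F hk fun p hp => ?_
  by_cases hR : ∃ i, p i ∈ F.R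
  · obtain ⟨i, hi⟩ := hR
    exact zero_of_R hq F hk h0 p i hi
  · push Not at hR
    choose q hq1 hq2 using fun i => (hp i).resolve_left (hR i)
    have h1 := vb_main D hg hn (oj_of_fam hq F hk halt h0) q hq1
    have h2 : p = fun i => F.phi (q i) := funext hq2
    rw [h2]
    exact h1

end Pool.Agent.Helper83.GK
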